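import Pool.Agent.H56CES.Fwd

/-!
# From coalition-exchange-stable matchings to satisfying assignments
-/

set_option autoImplicit false

namespace Pool.Agent.NPC.H56CES

variable {φ : Form}

theorem idx_split' {l₁ l₂ : List ℕ} {b c : ℕ} (hb : b ∈ l₁) (hc : c ∉ l₁) :
    (l₁ ++ l₂).idxOf b < (l₁ ++ l₂).idxOf c := by
  rw [List.idxOf_append_of_mem hb, List.idxOf_append_of_notMem hc]
  have := List.idxOf_lt_length_iff.2 hb
  omega

/-- Every gadget is matched inside itself. -/
theorem gadget_ok {n : ℕ} (hn : n = 4 * (lits φ).length) (M : Equiv.Perm (Fin n))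
    (h : ¬ BlockingCoalition (women φ) M.symm) (j : Fin n) :
    (M.symm j).val / 2 = j.val / 2 := by
  by_contra hj
  refine h (blocking_of_set {j : Fin n | (M.symm j).val / 2 ≠ j.val / 2} ⟨j, hj⟩ ?_)
  intro c hc
  rw [Set.mem_ofPred_eq] at hc
  have hlt := c.isLt
  have ha0 : 2 * (c.val / 2) < n := by omega
  have ha1 : 2 * (c.val / 2) + 1 < n := by omega
  -- one of the two men is matched outside
  have key : ∃ a : Fin n, a.val / 2 = c.val / 2 ∧ (M a).val / 2 ≠ c.val / 2 := by
    by_contra hcon
    push Not at hcon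
    have h0 := hcon ⟨2 * (c.val / 2), ha0⟩ (by simp)
    have h1 := hcon ⟨2 * (c.val / 2) + 1, ha1⟩ (by simp; omega)
    have hne : (M ⟨2 * (c.val / 2), ha0⟩).val ≠ (M ⟨2 * (c.val / 2) + 1, ha1⟩).val := by
      intro he
      have := M.injective (Fin.ext he)
      rw [Fin.mk.injEq] at this
      omega
    have : c = M ⟨2 * (c.val / 2), ha0⟩ ∨ c = M ⟨2 * (c.val / 2) + 1, ha1⟩ := by
      rw [Fin.ext_iff, Fin.ext_iff]
      omega
    rcases this with h3 | h3
    · apply hc
      conv_lhs => rw [h3]
      simp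
    · apply hc
      conv_lhs => rw [h3]
      simp
      omega
  obtain ⟨a, ha, hb⟩ := key
  refine ⟨M a, ?_, ?_⟩
  · rw [Set.mem_ofPred_eq, Equiv.symm_apply_apply, ha]
    exact fun h => hb h.symm
  · unfold Envies
    rw [Equiv.symm_apply_apply, women_getD φ (by omega : c.val < 4 * (lits φ).length)]
    apply prefers_of_notMem
    · simp only [List.mem_cons, List.not_mem_nil, or_false]
      omega
    · simp only [List.mem_cons, List.not_mem_nil, or_false]
      omega

/-- The woman of the man `i`. -/
def wife {n : ℕ} (M : Equiv.Perm (Fin n)) (i : ℕ) : ℕ :=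
  if h : i < n then (M ⟨i, h⟩).val else i

theorem wife_eq {n : ℕ} (M : Equiv.Perm (Fin n)) (hn2 : n % 2 = 0)
    (h : ∀ j : Fin n, (M.symm j).val / 2 = j.val / 2) {i : ℕ} (hi : i < n) :
    wife M i = sw (fun g => decide (wife M (2 * g) = 2 * g)) i := by
  have hd : ∀ a : Fin n, (M a).val / 2 = a.val / 2 := by
    intro a
    have := h (M a)
    rw [Equiv.symm_apply_apply] at this
    exact this.symm
  obtain ⟨g, hg⟩ := even_or_odd' i
  have h0 : 2 * g < n := by omega
  have h1 : 2 * g + 1 < n := by omega
  have hw0 : wife M (2 * g) = (M ⟨2 * g, h0⟩).val := by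
    unfold wife
    rw [dif_pos h0]
  have hw1 : wife M (2 * g + 1) = (M ⟨2 * g + 1, h1⟩).val := by
    unfold wife
    rw [dif_pos h1]
  have hd0 := hd ⟨2 * g, h0⟩
  have hd1 := hd ⟨2 * g + 1, h1⟩
  have hne : (M ⟨2 * g, h0⟩).val ≠ (M ⟨2 * g + 1, h1⟩).val := by
    intro he
    have := M.injective (Fin.ext he)
    rw [Fin.mk.injEq] at this
    omega
  rw [← hw0] at hd0 hne
  rw [← hw1] at hd1 hne
  simp only at hd0 hd1
  by_cases hs : wife M (2 * g) = 2 * g
  · have hs' : (fun g => decide (wife M (2 * g) = 2 * g)) g = true := by simp [hs]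
    rcases hg with rfl | rfl
    · rw [(sw_true hs').1, hs]
    · rw [(sw_true hs').2]
      omega
  · have hs' : (fun g => decide (wife M (2 * g) = 2 * g)) g = false := by simp [hs]
    rcases hg with rfl | rfl
    · rw [(sw_false hs').1]
      omega
    · rw [(sw_false hs').2]
      omega

theorem blocking_of_nat {n : ℕ} (hn : n = 4 * (lits φ).length) (M : Equiv.Perm (Fin n))
    (s : ℕ → Bool) (hs : ∀ i < n, wife M i = sw s i) (S : Set ℕ) (hne : S.Nonempty)
    (hS : ∀ i ∈ S, i < n)
    (h : ∀ i ∈ S, ∃ j ∈ S, (pre φ i).idxOf (sw s j) < (pre φ i).idxOf (sw s i)) :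
    BlockingCoalition (men φ) M := by
  obtain ⟨i0, hi0⟩ := hne
  refine blocking_of_set {a : Fin n | a.val ∈ S} ⟨⟨i0, hS _ hi0⟩, hi0⟩ ?_
  intro a ha
  rw [Set.mem_ofPred_eq] at ha
  obtain ⟨j, hj, hlt⟩ := h _ ha
  refine ⟨⟨j, hS _ hj⟩, hj, ?_⟩
  have e1 : (M ⟨j, hS _ hj⟩).val = sw s j := by
    rw [← hs j (hS _ hj), wife, dif_pos (hS _ hj)]
  have e2 : (M a).val = sw s a.val := by
    rw [← hs a.val a.isLt, wife, dif_pos a.isLt]
  unfold Envies
  rw [e1, e2, men_getD φ (by omega : a.val < 4 * (lits φ).length),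
    prefers_complete (own_mem _ _ (sw_div _ _))]
  exact hlt

theorem nxt3 (p : ℕ) : nxt (nxt (nxt p)) = p := by
  have hp3 : p = 3 * (p / 3) ∨ p = 3 * (p / 3) + 1 ∨ p = 3 * (p / 3) + 2 := by omega
  generalize p / 3 = g at hp3
  rcases hp3 with rfl | rfl | rfl
  · rw [nxt0, nxt1, nxt2]
  · rw [nxt1, nxt2, nxt0]
  · rw [nxt2, nxt0, nxt1]

theorem sat_of_stable (hB : Bd φ) {n : ℕ} (hn : n = 4 * (lits φ).length) (M : Equiv.Perm (Fin n))
    (h1 : ¬ BlockingCoalition (men φ) M) (h2 : ¬ BlockingCoalition (women φ) M.symm) :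
    SAT3 φ := by
  set s : ℕ → Bool := fun g => decide (wife M (2 * g) = 2 * g) with hs
  have hw : ∀ i < n, wife M i = sw s i :=
    fun i hi => wife_eq M (by omega) (gadget_ok hn M h2) hi
  have hblock := blocking_of_nat hn M s hw
  refine ⟨fun x => s ((lits φ).length + x), 
    (sat_iff fun x => s ((lits φ).length + x)).2 ?_⟩
  -- a true state at a position makes the literal true
  have hgood : ∀ p < (lits φ).length, s p = true →
      Good φ (fun x => s ((lits φ).length + x)) p := by
    intro p hp hsp
    by_contra hbad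
    unfold Good at hbad
    simp only at hbad
    have hx := hB p hp
    have hlit : lit φ p = ((lit φ p).1, (lit φ p).2) := rfl
    generalize hb : (lit φ p).1 = b at hbad hlit
    generalize hxx : (lit φ p).2 = x at hbad hlit hx
    refine h1 (hblock {2 * p + 1, sw s (2 * ((lits φ).length + x))} ⟨_, Or.inl rfl⟩ ?_ ?_)
    · intro i hi
      rcases hi with rfl | hi
      · omega
      · rw [Set.mem_singleton_iff] at hi
        rw [hi]
        exact sw_lt _ (by omega) (by omega)
    · intro i hi
      rcases hi with rfl | hi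
      · refine ⟨_, Or.inr rfl, ?_⟩
        rw [sw_sw, (sw_true hsp).2, pre_odd hp, hxx]
        exact idx_split' (l₁ := [2 * nxt p, 2 * p, 2 * ((lits φ).length + x)])
          (l₂ := [2 * p + 1]) (by simp) (by simp; omega)
      · rw [Set.mem_singleton_iff] at hi
        subst hi
        refine ⟨_, Or.inl rfl, ?_⟩
        rw [(sw_true hsp).2, sw_sw]
        cases hsx : s ((lits φ).length + x) with
        | true =>
          rw [(sw_true hsx).1, pre_var_even]
          refine idx_split' ?_ notMem_occ
          rw [mem_occ]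
          refine ⟨p, hp, ?_, rfl⟩
          rw [hlit]
          rw [hsx] at hbad
          cases b with
          | true => exact absurd rfl hbad
          | false => rfl
        | false =>
          rw [(sw_false hsx).1, pre_var_odd]
          refine idx_split' ?_ notMem_occ
          rw [mem_occ]
          refine ⟨p, hp, ?_, rfl⟩
          rw [hlit]
          rw [hsx] at hbad
          cases b with
          | true => rfl
          | false => exact absurd rfl hbad
  intro p hp
  have hn1 := nxt_lt hp
  have hn2 := nxt_lt hn1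
  cases h3 : s p with
  | true => exact Or.inl (hgood _ hp h3)
  | false =>
    cases h4 : s (nxt p) with
    | true => exact Or.inr (Or.inl (hgood _ hn1 h4))
    | false =>
      cases h5 : s (nxt (nxt p)) with
      | true => exact Or.inr (Or.inr (hgood _ hn2 h5))
      | false =>
        exfalso
        have hstep : ∀ q < (lits φ).length, s q = false → s (nxt q) = false →
            (pre φ (2 * q + 1)).idxOf (sw s (2 * nxt q + 1)) <
              (pre φ (2 * q + 1)).idxOf (sw s (2 * q + 1)) := by
          intro q hq hsq hsq'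
          rw [(sw_false hsq).2, (sw_false hsq').2, pre_odd hq]
          have := nxt_ne q
          exact idx_split' (l₁ := [2 * nxt q]) (by simp) (by simp; omega)
        refine h1 (hblock {2 * p + 1, 2 * nxt p + 1, 2 * nxt (nxt p) + 1} ⟨_, Or.inl rfl⟩ ?_ ?_)
        · rintro i (rfl | rfl | rfl) <;> omega
        · rintro i (rfl | rfl | rfl)
          · exact ⟨_, Or.inr (Or.inl rfl), hstep _ hp h3 h4⟩
          · exact ⟨_, Or.inr (Or.inr rfl), hstep _ hn1 h4 h5⟩
          · refine ⟨_, Or.inl rfl, ?_⟩
            have := hstep _ hn2 h5 (by rw [nxt3]; exact h3)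
            rw [nxt3] at this
            exact this

theorem red_correct (hB : Bd φ) : SAT3 φ ↔ HasStable (red φ) := by
  constructor
  · exact hasStable_of_sat hB
  · rintro ⟨_, M, h1, h2⟩
    exact sat_of_stable hB (length_men φ) M h1 h2

end Pool.Agent.NPC.H56CES
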