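import Pool.Agent.H56CES.Defs

/-!
# Cycles and potentials
-/

set_option autoImplicit false

namespace Pool.Agent.NPC.H56CES

open Function

theorem exists_cycle {α : Type} [Finite α] (f : α → α) (S : Set α) (hne : S.Nonempty)
    (hS : ∀ x ∈ S, f x ∈ S) (hf : ∀ x ∈ S, f x ≠ x) :
    ∃ (k : ℕ) (a : ℕ → α), 2 ≤ k ∧ (∀ i < k, ∀ j < k, a i = a j → i = j) ∧ (∀ i, a i ∈ S) ∧
      ∀ i < k, a ((i + 1) % k) = f (a i) := by
  obtain ⟨x, hx⟩ := hne
  have hit : ∀ i, f^[i] x ∈ S := by
    intro i
    induction i with
    | zero => exact hx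
    | succ i ih =>
      rw [iterate_succ_apply']
      exact hS _ ih
  obtain ⟨m, n, hmn, he⟩ := Finite.exists_ne_map_eq_of_infinite fun i : ℕ => f^[i] x
  have key : ∀ m n : ℕ, m < n → f^[m] x = f^[n] x → ∃ y ∈ S, y ∈ periodicPts f := by
    intro m n hmn he
    refine ⟨f^[m] x, hit m, mk_mem_periodicPts (n := n - m) (by omega) ?_⟩
    rw [IsPeriodicPt, IsFixedPt, ← iterate_add_apply]
    rw [show n - m + m = n by omega]
    exact he.symm
  have : ∃ y ∈ S, y ∈ periodicPts f := by
    rcases lt_or_gt_of_ne hmn with h | h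
    · exact key m n h he
    · exact key n m h he.symm
  obtain ⟨y, hy, hp⟩ := this
  have hity : ∀ i, f^[i] y ∈ S := by
    intro i
    induction i with
    | zero => exact hy
    | succ i ih =>
      rw [iterate_succ_apply']
      exact hS _ ih
  set k := minimalPeriod f y with hk
  have hk0 : 0 < k := minimalPeriod_pos_of_mem_periodicPts hp
  have hk1 : k ≠ 1 := by
    intro h
    rw [hk, minimalPeriod_eq_one_iff_isFixedPt] at h
    exact hf y hy h
  refine ⟨k, fun i => f^[i] y, by omega, ?_, hity, ?_⟩
  · intro i hi j hj hij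
    exact iterate_injOn_Iio_minimalPeriod hi hj hij
  · intro i hi
    simp only
    rcases Nat.lt_or_ge (i + 1) k with h | h
    · rw [Nat.mod_eq_of_lt h, iterate_succ_apply']
    · have : i + 1 = k := by omega
      rw [this, Nat.mod_self, iterate_zero_apply, ← iterate_succ_apply' f i y,
        Nat.succ_eq_add_one, this]
      exact (iterate_minimalPeriod (f := f) (x := y)).symm

variable {n : ℕ} {L : List (List ℕ)} {P : Fin n → Fin n}

/-- The agent `a` prefers the partner of `b`. -/
def Envies (L : List (List ℕ)) (P : Fin n → Fin n) (a b : Fin n) : Prop :=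
  Prefers (L.getD a.val []) (P b).val (P a).val

theorem not_envies_self (a : Fin n) : ¬ Envies L P a a := by
  unfold Envies Prefers
  exact lt_irrefl _

/-- A potential excludes coalitions. -/
theorem not_blocking (r : Fin n → ℕ) (h : ∀ a b, Envies L P a b → r b < r a) :
    ¬ BlockingCoalition L P := by
  rintro ⟨k, a, hk, _, ha⟩
  obtain ⟨i, hi, hmin⟩ := Finset.exists_min_image (Finset.range k) (fun i => r (a i))
    ⟨0, by simp; omega⟩
  rw [Finset.mem_range] at hi
  have h1 := h _ _ (ha i hi)
  have h2 := hmin ((i + 1) % k) (Finset.mem_range.2 (Nat.mod_lt _ (by omega)))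
  omega

/-- A set all of whose members envy some member contains a coalition. -/
theorem blocking_of_set (S : Set (Fin n)) (hne : S.Nonempty)
    (h : ∀ a ∈ S, ∃ b ∈ S, Envies L P a b) : BlockingCoalition L P := by
  classical
  choose! f hf1 hf2 using h
  obtain ⟨k, a, hk, hinj, haS, hstep⟩ := exists_cycle f S hne hf1 (by
    intro x hx he
    have := hf2 x hx
    rw [he] at this
    exact not_envies_self _ this)
  refine ⟨k, a, hk, hinj, ?_⟩
  intro i hi
  rw [hstep i hi]
  exact hf2 _ (haS i)

/-- Without coalitions there is a potential. -/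
theorem exists_potential (h : ¬ BlockingCoalition L P) :
    ∃ r : Fin n → ℕ, (∀ a, r a ≤ n) ∧ ∀ a b, Envies L P a b → r b < r a := by
  classical
  have hwf : WellFounded fun b a => Envies L P a b := by
    rw [WellFounded.wellFounded_iff_has_min]
    intro S hS
    by_contra hcon
    push Not at hcon
    exact h (blocking_of_set S hS fun a ha => by
      obtain ⟨b, hb, hb'⟩ := hcon a ha
      exact ⟨b, hb, hb'⟩)
  set T : Fin n → Finset (Fin n) := fun a =>
    Finset.univ.filter fun b => Relation.TransGen (fun b a => Envies L P a b) b a with hT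
  refine ⟨fun a => (T a).card, fun a => ?_, fun a b hab => ?_⟩
  · exact (Finset.card_le_univ _).trans (by rw [Fintype.card_fin])
  · apply Finset.card_lt_card
    rw [Finset.ssubset_iff_of_subset]
    · refine ⟨b, ?_, ?_⟩
      · simp only [T, Finset.mem_filter, Finset.mem_univ, true_and]
        exact Relation.TransGen.single hab
      · simp only [T, Finset.mem_filter, Finset.mem_univ, true_and]
        exact hwf.transGen.irrefl.irrefl b
    · intro c hc
      simp only [T, Finset.mem_filter, Finset.mem_univ, true_and] at hc ⊢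
      exact hc.tail hab

end Pool.Agent.NPC.H56CES
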