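import Pool.Agent.NPC.Defs

/-!
# Coalition-exchange-stable matchings: definitions
-/

set_option autoImplicit false

namespace Pool.Agent.NPC.H56CES

/-- An instance of the stable marriage problem: the preference lists of the men and the preference
lists of the women. -/
abbrev Inst : Type := List (List ℕ) × List (List ℕ)

/-- There are equally many men and women, numbered `0, …, n - 1`, and the preference list of every
agent is an ordering of all agents of the other sex, the most preferred one first. -/
def IsInstance (I : Inst) : Prop :=
  I.2.length = I.1.length ∧ (∀ l ∈ I.1, l.Perm (List.range I.1.length)) ∧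
    ∀ l ∈ I.2, l.Perm (List.range I.1.length)

/-- An agent with the preference list `l` strictly prefers `b` to `c`. -/
def Prefers (l : List ℕ) (b c : ℕ) : Prop := l.idxOf b < l.idxOf c

/-- `L` are the preference lists of the `n` agents of one sex, and `P a` is the partner of the
agent `a`. There is an exchange-blocking coalition: a sequence `a 0, …, a (k - 1)` of `k ≥ 2`
distinct agents such that `a i` strictly prefers the partner of `a (i + 1)` (indices modulo `k`)
to the own partner, for every `i`. -/
def BlockingCoalition {n : ℕ} (L : List (List ℕ)) (P : Fin n → Fin n) : Prop :=
  ∃ (k : ℕ) (a : ℕ → Fin n), 2 ≤ k ∧ (∀ i < k, ∀ j < k, a i = a j → i = j) ∧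
    ∀ i < k, Prefers (L.getD (a i).val []) (P (a ((i + 1) % k))).val (P (a i)).val

/-- The perfect matching of every man `i` with the woman `M i` is coalition-exchange-stable. -/
def CoalitionExchangeStable (I : Inst) (M : Equiv.Perm (Fin I.1.length)) : Prop :=
  ¬ BlockingCoalition I.1 M ∧ ¬ BlockingCoalition I.2 M.symm

/-- The lists of the women agree with the common list `0, 1, 2, …` except for the first two
entries: every woman puts two men `a` and `b` first, followed by all other men in the order of
their numbers. -/
def AlmostCommon (I : Inst) : Prop :=
  ∀ l ∈ I.2, ∃ a b : ℕ,
    l = a :: b :: (List.range I.1.length).filter fun m => decide (m ≠ a ∧ m ≠ b)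

/-- The instance has almost common lists of the women, and it has a coalition-exchange-stable
matching. -/
def HasStable (I : Inst) : Prop :=
  (IsInstance I ∧ AlmostCommon I) ∧
    ∃ M : Equiv.Perm (Fin I.1.length), CoalitionExchangeStable I M

/-- `F` solves the search problem on the instances with almost common lists of the women: it
outputs a coalition-exchange-stable matching (as the list of the partners of the men) or reports
that there is none. Nothing is required of `F` for other inputs. -/
def SolvesSearch (F : List Bool → List Bool) : Prop :=
  ∀ I : Inst, IsInstance I → AlmostCommon I →
    (∃ M : Equiv.Perm (Fin I.1.length), CoalitionExchangeStable I M ∧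
      F (bits I) = bits (some (List.ofFn fun i => (M i).val))) ∨
    ((∀ M : Equiv.Perm (Fin I.1.length), ¬ CoalitionExchangeStable I M) ∧
      F (bits I) = bits (none : Option (List ℕ)))

end Pool.Agent.NPC.H56CES
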