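import Pool.Agent.H56CES.Red

/-!
# From satisfying assignments to coalition-exchange-stable matchings
-/

set_option autoImplicit false

namespace Pool.Agent.NPC.H56CES

variable {φ : Form}

/-! ### Clauses and positions -/

theorem lits_cons (c : Lit ℕ × Lit ℕ × Lit ℕ) (φ : Form) :
    lits (c :: φ) = c.1 :: c.2.1 :: c.2.2 :: lits φ := by
  simp [lits]

theorem lit_eq (φ : Form) : ∀ (g : ℕ) (hg : g < φ.length), lit φ (3 * g) = (φ[g]).1 ∧
    lit φ (3 * g + 1) = (φ[g]).2.1 ∧ lit φ (3 * g + 2) = (φ[g]).2.2 := by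
  induction φ with
  | nil => intro g hg; simp at hg
  | cons c φ ih =>
    intro g hg
    unfold lit at ih ⊢
    rw [lits_cons]
    cases g with
    | zero => exact ⟨rfl, rfl, rfl⟩
    | succ g =>
      have := ih g (by simpa using hg)
      rw [show 3 * (g + 1) = 3 * g + 1 + 1 + 1 by ring]
      simpa using this

/-- The literal at the position `p` is true. -/
def Good (φ : Form) (τ : ℕ → Bool) (p : ℕ) : Prop := τ (lit φ p).2 = (lit φ p).1

theorem nxt0 (g : ℕ) : nxt (3 * g) = 3 * g + 1 := by
  unfold nxt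
  simp

theorem nxt1 (g : ℕ) : nxt (3 * g + 1) = 3 * g + 2 := by
  unfold nxt
  simp

theorem nxt2 (g : ℕ) : nxt (3 * g + 2) = 3 * g := by
  unfold nxt
  have : (3 * g + 2) % 3 = 2 := by omega
  simp [this]

theorem sat_iff (τ : ℕ → Bool) :
    (∀ c ∈ φ, τ c.1.2 = c.1.1 ∨ τ c.2.1.2 = c.2.1.1 ∨ τ c.2.2.2 = c.2.2.1) ↔
      ∀ p < (lits φ).length, Good φ τ p ∨ Good φ τ (nxt p) ∨ Good φ τ (nxt (nxt p)) := by
  constructor
  · intro h p hp
    rw [length_lits] at hp
    have hg : p / 3 < φ.length := by omega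
    obtain ⟨h0, h1, h2⟩ := lit_eq φ (p / 3) hg
    have hc := h _ (List.getElem_mem hg)
    have hc' : Good φ τ (3 * (p / 3)) ∨ Good φ τ (3 * (p / 3) + 1) ∨
        Good φ τ (3 * (p / 3) + 2) := by
      unfold Good
      rw [h0, h1, h2]
      exact hc
    have hp3 : p = 3 * (p / 3) ∨ p = 3 * (p / 3) + 1 ∨ p = 3 * (p / 3) + 2 := by omega
    generalize p / 3 = g at hc' hp3
    rcases hp3 with rfl | rfl | rfl
    · rw [nxt0, nxt1]
      exact hc'
    · rw [nxt1, nxt2]
      tauto
    · rw [nxt2, nxt0]
      tauto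
  · intro h c hc
    obtain ⟨g, hg, rfl⟩ := List.getElem_of_mem hc
    obtain ⟨h0, h1, h2⟩ := lit_eq φ g hg
    have := h (3 * g) (by rw [length_lits]; omega)
    rw [nxt0, nxt1] at this
    unfold Good at this
    rw [h0, h1, h2] at this
    exact this

/-! ### The matching -/

/-- The partner of the agent `i`, for the states `s` of the gadgets. -/
def sw (s : ℕ → Bool) (i : ℕ) : ℕ :=
  if s (i / 2) = true then i else if i % 2 = 0 then i + 1 else i - 1

theorem sw_div (s : ℕ → Bool) (i : ℕ) : sw s i / 2 = i / 2 := by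
  unfold sw
  split_ifs <;> omega

theorem sw_lt {n : ℕ} (s : ℕ → Bool) {i : ℕ} (hn : n % 2 = 0) (h : i < n) : sw s i < n := by
  have := sw_div s i
  omega

theorem sw_true {s : ℕ → Bool} {g : ℕ} (h : s g = true) : sw s (2 * g) = 2 * g ∧
    sw s (2 * g + 1) = 2 * g + 1 := by
  have h1 : 2 * g / 2 = g := by omega
  have h2 : (2 * g + 1) / 2 = g := by omega
  unfold sw
  rw [h1, h2]
  simp [h]

theorem sw_false {s : ℕ → Bool} {g : ℕ} (h : s g = false) : sw s (2 * g) = 2 * g + 1 ∧
    sw s (2 * g + 1) = 2 * g := by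
  have h1 : 2 * g / 2 = g := by omega
  have h2 : (2 * g + 1) / 2 = g := by omega
  have h3 : 2 * g % 2 = 0 := by omega
  have h4 : (2 * g + 1) % 2 = 1 := by omega
  unfold sw
  rw [h1, h2, h3, h4]
  simp [h]

theorem sw_sw (s : ℕ → Bool) (i : ℕ) : sw s (sw s i) = i := by
  obtain ⟨g, hg⟩ := even_or_odd' i
  cases hs : s g with
  | true =>
    rcases hg with rfl | rfl
    · rw [(sw_true hs).1, (sw_true hs).1]
    · rw [(sw_true hs).2, (sw_true hs).2]
  | false =>
    rcases hg with rfl | rfl
    · rw [(sw_false hs).1, (sw_false hs).2]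
    · rw [(sw_false hs).2, (sw_false hs).1]

/-- The potential of the man with the woman `j`. -/
def pot (K : ℕ) (s : ℕ → Bool) (j : ℕ) : ℕ :=
  if j / 2 < K then
    (if j % 2 = 0 then (if s (j / 2) = true then 0 else if s (nxt (j / 2)) = true then 1 else 2)
      else (if s (j / 2) = true then 5 else 3))
  else (if j % 2 = 0 then 4 else 6)

theorem pot_even {K : ℕ} {s : ℕ → Bool} (g : ℕ) : pot K s (2 * g) ≤ 4 := by
  have h3 : 2 * g % 2 = 0 := by omega
  unfold pot
  rw [h3]
  split_ifs <;> omega

theorem pot_cl0 {K : ℕ} {s : ℕ → Bool} {g : ℕ} (hg : g < K) : pot K s (2 * g) =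
    if s g = true then 0 else if s (nxt g) = true then 1 else 2 := by
  have h1 : 2 * g / 2 = g := by omega
  have h3 : 2 * g % 2 = 0 := by omega
  unfold pot
  rw [h1, h3, if_pos hg, if_pos rfl]

theorem pot_cl1 {K : ℕ} {s : ℕ → Bool} {g : ℕ} (hg : g < K) : pot K s (2 * g + 1) =
    if s g = true then 5 else 3 := by
  have h1 : (2 * g + 1) / 2 = g := by omega
  have h3 : ¬ (2 * g + 1) % 2 = 0 := by omega
  unfold pot
  rw [h1, if_pos hg, if_neg h3]

theorem pot_var0 {K : ℕ} {s : ℕ → Bool} (x : ℕ) : pot K s (2 * (K + x)) = 4 := by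
  have h1 : ¬ 2 * (K + x) / 2 < K := by omega
  have h3 : 2 * (K + x) % 2 = 0 := by omega
  unfold pot
  rw [if_neg h1, if_pos h3]

theorem pot_var1 {K : ℕ} {s : ℕ → Bool} (x : ℕ) : pot K s (2 * (K + x) + 1) = 6 := by
  have h1 : ¬ (2 * (K + x) + 1) / 2 < K := by omega
  have h3 : ¬ (2 * (K + x) + 1) % 2 = 0 := by omega
  unfold pot
  rw [if_neg h1, if_neg h3]

/-- The states of the gadgets for an assignment. -/
def sta (φ : Form) (τ : ℕ → Bool) (g : ℕ) : Bool :=
  if g < (lits φ).length then decide (τ (lit φ g).2 = (lit φ g).1) else τ (g - (lits φ).length)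

theorem sta_cl {τ : ℕ → Bool} {p : ℕ} (hp : p < (lits φ).length) :
    sta φ τ p = decide (τ (lit φ p).2 = (lit φ p).1) := by
  unfold sta
  rw [if_pos hp]

theorem sta_var (τ : ℕ → Bool) (x : ℕ) : sta φ τ ((lits φ).length + x) = τ x := by
  unfold sta
  rw [if_neg (by omega)]
  congr 1
  omega

theorem idxOf_lt {l : List ℕ} {b c : ℕ} (hc : c ∈ l) (h : l.idxOf b < l.idxOf c) : b ∈ l := by
  have := List.idxOf_lt_length_iff.2 hc
  exact List.idxOf_lt_length_iff.1 (by omega)

theorem idx_split {l₁ l₂ : List ℕ} {b c : ℕ} (hc : c ∉ l₁)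
    (h : (l₁ ++ c :: l₂).idxOf b < (l₁ ++ c :: l₂).idxOf c) : b ∈ l₁ := by
  by_contra hb
  rw [List.idxOf_append_of_notMem hb, List.idxOf_append_of_notMem hc, List.idxOf_cons_self] at h
  omega

theorem notMem_occ {b : Bool} {x g : ℕ} : 2 * g ∉ occ φ b x := by
  rw [mem_occ]
  rintro ⟨p, _, _, h⟩
  omega

theorem notMem_occ' {b : Bool} {x y : ℕ} : 2 * ((lits φ).length + y) + 1 ∉ occ φ b x := by
  rw [mem_occ]
  rintro ⟨p, _, _, h⟩
  omega

theorem pot_lt {τ : ℕ → Bool} (hτ : ∀ p < (lits φ).length, Good φ τ p ∨ Good φ τ (nxt p) ∨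
      Good φ τ (nxt (nxt p))) (i j' : ℕ)
    (h : (pre φ i).idxOf j' < (pre φ i).idxOf (sw (sta φ τ) i)) :
    pot (lits φ).length (sta φ τ) j' < pot (lits φ).length (sta φ τ) (sw (sta φ τ) i) := by
  obtain ⟨g, hg⟩ := even_or_odd' i
  rcases lt_or_ge g (lits φ).length with hgK | hgK
  · have hn1 := nxt_lt hgK
    have hn2 := nxt_lt hn1
    rcases hg with rfl | rfl
    · rw [pre_even hgK] at h
      cases hs : sta φ τ g with
      | true =>
        rw [(sw_true hs).1] at h
        simp at h
      | false =>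
        rw [(sw_false hs).1] at h ⊢
        rw [pot_cl1 hgK, hs]
        have h1 := idx_split (l₁ := [2 * g]) (l₂ := []) (by simp) h
        rw [List.mem_singleton] at h1
        subst h1
        rw [pot_cl0 hgK, hs]
        simp only [Bool.false_eq_true, if_false]
        split_ifs <;> omega
    · rw [pre_odd hgK] at h
      cases hs : sta φ τ g with
      | true =>
        rw [(sw_true hs).2] at h ⊢
        have h1 := idx_split (l₁ := [2 * nxt g, 2 * g, 2 * ((lits φ).length + (lit φ g).2)])
          (l₂ := []) (by simp; omega) h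
        rw [pot_cl1 hgK, hs, if_pos rfl]
        simp only [List.mem_cons, List.not_mem_nil, or_false] at h1
        rcases h1 with rfl | rfl | rfl
        · exact lt_of_le_of_lt (pot_even _) (by norm_num)
        · exact lt_of_le_of_lt (pot_even _) (by norm_num)
        · exact lt_of_le_of_lt (pot_even _) (by norm_num)
      | false =>
        rw [(sw_false hs).2] at h ⊢
        have h0 := nxt_ne g
        have h1 := idx_split (l₁ := [2 * nxt g])
          (l₂ := [2 * ((lits φ).length + (lit φ g).2), 2 * g + 1]) (by simp; omega) h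
        rw [List.mem_singleton] at h1
        subst h1
        rw [pot_cl0 hgK, pot_cl0 hn1, hs]
        have h2 := hτ g hgK
        unfold Good at h2
        rw [sta_cl hgK, decide_eq_false_iff_not] at hs
        rw [sta_cl hn1, sta_cl hn2]
        simp only [decide_eq_true_eq, Bool.false_eq_true, if_false]
        split_ifs with h3 h4
        · omega
        · omega
        · tauto
  · obtain ⟨x, rfl⟩ := Nat.exists_eq_add_of_le hgK
    rcases hg with rfl | rfl
    · rw [pre_var_even] at h
      cases hs : sta φ τ ((lits φ).length + x) with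
      | true =>
        rw [(sw_true hs).1] at h ⊢
        have h1 := idx_split (l₁ := occ φ false x)
          (l₂ := [2 * ((lits φ).length + x) + 1]) notMem_occ h
        rw [mem_occ] at h1
        obtain ⟨p, hp, hlp, rfl⟩ := h1
        rw [sta_var] at hs
        rw [pot_var0, pot_cl1 hp, sta_cl hp, hlp]
        simp [hs]
      | false =>
        rw [(sw_false hs).1] at h ⊢
        rw [pot_var1]
        have h1 := idx_split (l₁ := occ φ false x ++ [2 * ((lits φ).length + x)])
          (l₂ := []) (by
            rw [List.mem_append, not_or]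
            exact ⟨notMem_occ' (y := x), by simp⟩) (by
            rw [List.append_assoc]
            exact h)
        rw [List.mem_append, mem_occ, List.mem_singleton] at h1
        rcases h1 with ⟨p, hp, _, rfl⟩ | rfl
        · rw [pot_cl1 hp]
          split_ifs <;> omega
        · rw [pot_var0]
          norm_num
    · rw [pre_var_odd] at h
      cases hs : sta φ τ ((lits φ).length + x) with
      | true =>
        rw [(sw_true hs).2] at h ⊢
        rw [pot_var1]
        have h1 := idx_split (l₁ := occ φ true x ++ [2 * ((lits φ).length + x)])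
          (l₂ := []) (by
            rw [List.mem_append, not_or]
            exact ⟨notMem_occ' (y := x), by simp⟩) (by
            rw [List.append_assoc]
            exact h)
        rw [List.mem_append, mem_occ, List.mem_singleton] at h1
        rcases h1 with ⟨p, hp, _, rfl⟩ | rfl
        · rw [pot_cl1 hp]
          split_ifs <;> omega
        · rw [pot_var0]
          norm_num
      | false =>
        rw [(sw_false hs).2] at h ⊢
        have h1 := idx_split (l₁ := occ φ true x)
          (l₂ := [2 * ((lits φ).length + x) + 1]) notMem_occ h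
        rw [mem_occ] at h1
        obtain ⟨p, hp, hlp, rfl⟩ := h1
        rw [sta_var] at hs
        rw [pot_var0, pot_cl1 hp, sta_cl hp, hlp]
        simp [hs]

theorem own_mem (i j : ℕ) (h : j / 2 = i / 2) : j ∈ pre φ i := by
  obtain ⟨g, hg⟩ := even_or_odd' i
  have hj : j = 2 * g ∨ j = 2 * g + 1 := by omega
  rcases lt_or_ge g (lits φ).length with hgK | hgK
  · rcases hg with rfl | rfl
    · rw [pre_even hgK]
      rcases hj with rfl | rfl <;> simp
    · rw [pre_odd hgK]
      rcases hj with rfl | rfl <;> simp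
  · obtain ⟨x, rfl⟩ := Nat.exists_eq_add_of_le hgK
    rcases hg with rfl | rfl
    · rw [pre_var_even, List.mem_append]
      right
      rcases hj with rfl | rfl <;> simp
    · rw [pre_var_odd, List.mem_append]
      right
      rcases hj with rfl | rfl <;> simp

/-- The matching. -/
def swPerm {n : ℕ} (s : ℕ → Bool) (hn : n % 2 = 0) : Equiv.Perm (Fin n) where
  toFun i := ⟨sw s i.val, sw_lt s hn i.isLt⟩
  invFun i := ⟨sw s i.val, sw_lt s hn i.isLt⟩
  left_inv i := by
    apply Fin.ext
    exact sw_sw s i.val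
  right_inv i := by
    apply Fin.ext
    exact sw_sw s i.val

theorem men_ok {n : ℕ} (hn : n = 4 * (lits φ).length) {τ : ℕ → Bool}
    (hτ : ∀ p < (lits φ).length, Good φ τ p ∨ Good φ τ (nxt p) ∨ Good φ τ (nxt (nxt p)))
    (h2 : n % 2 = 0) :
    ¬ BlockingCoalition (men φ) (swPerm (sta φ τ) h2 : Equiv.Perm (Fin n)) := by
  refine not_blocking (fun i => pot (lits φ).length (sta φ τ) (sw (sta φ τ) i.val)) ?_
  intro a b hab
  unfold Envies at hab
  rw [men_getD φ (by omega : a.val < 4 * (lits φ).length)] at hab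
  change Prefers _ (sw (sta φ τ) b.val) (sw (sta φ τ) a.val) at hab
  rw [prefers_complete (own_mem _ _ (sw_div _ _))] at hab
  exact pot_lt hτ _ _ hab

theorem women_ok {n : ℕ} (hn : n = 4 * (lits φ).length) (s : ℕ → Bool) (h2 : n % 2 = 0) :
    ¬ BlockingCoalition (women φ) ((swPerm s h2 : Equiv.Perm (Fin n)).symm) := by
  refine not_blocking (fun i => sw s i.val % 2) ?_
  intro a b hab
  unfold Envies at hab
  rw [women_getD φ (by omega : a.val < 4 * (lits φ).length)] at hab
  change Prefers _ (sw s b.val) (sw s a.val) at hab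
  have h3 := sw_div s a.val
  have h4 : sw s a.val = 2 * (a.val / 2) ∨ sw s a.val = 2 * (a.val / 2) + 1 := by omega
  rcases h4 with h4 | h4
  · rw [h4] at hab
    rw [prefers_complete (by simp)] at hab
    simp at hab
  · rw [h4] at hab ⊢
    rw [prefers_complete (by simp)] at hab
    have h1 := idx_split (l₁ := [2 * (a.val / 2)]) (l₂ := []) (by simp) hab
    rw [List.mem_singleton] at h1
    rw [h1]
    omega

theorem length_men (φ : Form) : (men φ).length = 4 * (lits φ).length := by simp [men]

theorem hasStable_of_sat (hB : Bd φ) (h : SAT3 φ) : HasStable (red φ) := by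
  refine ⟨⟨isInstance_red hB, almostCommon_red φ⟩, ?_⟩
  obtain ⟨τ, hτ⟩ := h
  rw [sat_iff] at hτ
  have hn : (red φ).1.length = 4 * (lits φ).length := length_men φ
  have h2 : (red φ).1.length % 2 = 0 := by rw [hn]; omega
  exact ⟨swPerm (sta φ τ) h2, men_ok hn hτ h2, women_ok hn _ h2⟩

end Pool.Agent.NPC.H56CES
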