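import Pool.Agent.H56CES.Bwd
import Pool.Agent.H56N.PolyTime

/-!
# The reduction runs in polynomial time; membership in NP
-/

set_option autoImplicit false

namespace Pool.Agent.NPC.H56CES

open H56N.P (PB mapM filterM mem' foldr')

namespace P

variable {α : Type} [TEnc α]

theorem lits {φ : α → Form} (hφ : Poly φ) : Poly (fun a => lits (φ a)) := by
  refine H56N.P.flatMapM (F := fun _ (c : Lit ℕ × Lit ℕ × Lit ℕ) => [c.1, c.2.1, c.2.2]) hφ ?_
  exact Poly.cons (Poly.fst (Poly.snd Poly.id)) (Poly.cons (Poly.fst (Poly.snd (Poly.snd Poly.id)))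
    (Poly.cons (Poly.snd (Poly.snd (Poly.snd Poly.id))) (Poly.const [])))

theorem lit {φ : α → Form} {p : α → ℕ} (hφ : Poly φ) (hp : Poly p) :
    Poly (fun a => lit (φ a) (p a)) := Poly.getD (lits hφ) hp (Poly.const _)

theorem nxt {p : α → ℕ} (hp : Poly p) : Poly (fun a => nxt (p a)) :=
  Poly.cond (Poly.decide_eq (Poly.mod hp (Poly.const 3)) (Poly.const 2))
    (Poly.sub hp (Poly.const 2)) (Poly.succ hp)

theorem occ {φ : α → Form} {b : α → Bool} {x : α → ℕ} (hφ : Poly φ) (hb : Poly b) (hx : Poly x) :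
    Poly (fun a => occ (φ a) (b a) (x a)) := by
  unfold H56CES.occ
  refine mapM (F := fun _ p => 2 * p + 1) (filterM
    (p := fun a p => decide (H56CES.lit (φ a) p = (b a, x a)))
    (Poly.range_length (lits hφ)) ?_) ?_
  · exact Poly.decide_eq (lit (hφ.comp (Poly.fst Poly.id)) (Poly.snd Poly.id))
      (Poly.pair (hb.comp (Poly.fst Poly.id)) (hx.comp (Poly.fst Poly.id)))
  · exact Poly.succ (Poly.mul (Poly.const 2) (Poly.snd Poly.id))

theorem two {p : α → ℕ} (hp : Poly p) : Poly (fun a => 2 * p a) := Poly.mul (Poly.const 2) hp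

theorem pre {φ : α → Form} {i : α → ℕ} (hφ : Poly φ) (hi : Poly i) :
    Poly (fun a => pre (φ a) (i a)) := by
  have hg : Poly (fun a => i a / 2) := Poly.div hi (Poly.const 2)
  have hm : Poly (fun a => i a % 2) := Poly.mod hi (Poly.const 2)
  have hK : Poly (fun a => (H56CES.lits (φ a)).length) := Poly.length (lits hφ)
  have h2 : Poly (fun a => 2 * (i a / 2)) := two hg
  have h3 : Poly (fun a => 2 * (i a / 2) + 1) := Poly.succ h2
  exact Poly.cond (Poly.decide_lt hg hK)
    (Poly.cond (Poly.decide_eq hm (Poly.const 0)) (Poly.cons h2 (Poly.cons h3 (Poly.const [])))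
      (Poly.cons (two (nxt hg)) (Poly.cons h2 (Poly.cons (two (Poly.add hK
        (Poly.snd (lit hφ hg)))) (Poly.cons h3 (Poly.const []))))))
    (Poly.append (occ hφ (Poly.decide_eq hm (Poly.const 1)) (Poly.sub hg hK))
      (Poly.cons h2 (Poly.cons h3 (Poly.const []))))

theorem complete {n : α → ℕ} {l : α → List ℕ} (hn : UPoly n) (hl : Poly l) :
    Poly (fun a => complete (n a) (l a)) := by
  unfold H56CES.complete
  refine Poly.append hl (filterM (p := fun a j => !decide (j ∈ l a)) hn.range ?_)
  exact Poly.not (mem' (Poly.snd Poly.id) (hl.comp (Poly.fst Poly.id)))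

theorem size {φ : α → Form} (hφ : Poly φ) : UPoly (fun a => 4 * (H56CES.lits (φ a)).length) :=
  (UPoly.const 4).mul (UPoly.length (lits hφ))

theorem men {φ : α → Form} (hφ : Poly φ) : Poly (fun a => men (φ a)) := by
  unfold H56CES.men
  refine mapM (F := fun a i => H56CES.complete (4 * (H56CES.lits (φ a)).length)
    (H56CES.pre (φ a) i)) (size hφ).range ?_
  exact complete ((size hφ).comp (Poly.fst Poly.id))
    (pre (hφ.comp (Poly.fst Poly.id)) (Poly.snd Poly.id))

theorem women {φ : α → Form} (hφ : Poly φ) : Poly (fun a => women (φ a)) := by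
  unfold H56CES.women
  refine mapM (F := fun a j => H56CES.complete (4 * (H56CES.lits (φ a)).length)
    [2 * (j / 2), 2 * (j / 2) + 1]) (size hφ).range ?_
  have h2 : Poly (fun p : α × ℕ => 2 * (p.2 / 2)) :=
    two (Poly.div (Poly.snd Poly.id) (Poly.const 2))
  exact complete ((size hφ).comp (Poly.fst Poly.id))
    (Poly.cons h2 (Poly.cons (Poly.succ h2) (Poly.const [])))

end P

theorem poly_red : Poly red := Poly.pair (P.men Poly.id) (P.women Poly.id)

/-- Hardness: every language in `NP` reduces to the existence of coalition-exchange-stable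
matchings. -/
theorem hardPr_stable : HardPr (fun I => IsInstance I ∧ AlmostCommon I) HasStable :=
  hardPr_SAT3b.trans poly_red
    (fun _ h => ⟨isInstance_red (bd_of_bounded3 h.2.1), almostCommon_red _⟩)
    fun _ h => red_correct (bd_of_bounded3 h.2.1)

/-! ### Membership in NP -/

/-- The position in a list. -/
def pos (l : List ℕ) (b : ℕ) : ℕ := l.foldr (fun a acc => bif decide (a = b) then 0 else acc + 1) 0

theorem pos_eq (l : List ℕ) (b : ℕ) : pos l b = l.idxOf b := by
  unfold pos
  induction l with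
  | nil => rfl
  | cons a l ih =>
    rw [List.foldr_cons, ih, List.idxOf_cons]
    by_cases h : a = b
    · simp [h]
    · have : (a == b) = false := by simpa using h
      rw [this, decide_eq_false h]

theorem pos_le (l : List ℕ) (b : ℕ) : pos l b ≤ l.length := by
  rw [pos_eq]
  exact List.idxOf_le_length

/-- `l` is an ordering of the numbers below `n`. -/
def isPerm (n : ℕ) (l : List ℕ) : Bool :=
  decide (l.length = n) && (List.range n).all fun j => decide (j ∈ l)

theorem isPerm_iff (n : ℕ) (l : List ℕ) : isPerm n l = true ↔ l.Perm (List.range n) := by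
  unfold isPerm
  simp only [Bool.and_eq_true, decide_eq_true_eq, List.all_eq_true, List.mem_range]
  constructor
  · rintro ⟨h1, h2⟩
    have : (List.range n).Subperm l :=
      List.subperm_of_subset List.nodup_range fun j hj => h2 j (List.mem_range.1 hj)
    exact (this.perm_of_length_le (by simp [h1])).symm
  · intro h
    refine ⟨by rw [h.length_eq, List.length_range], fun j hj => ?_⟩
    rw [h.mem_iff, List.mem_range]
    exact hj

/-- The list of a woman who puts `a` and `b` first. -/
def std (n a b : ℕ) : List ℕ :=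
  a :: b :: (List.range n).filter fun m => decide (¬ m = a) && decide (¬ m = b)

/-- Check an instance. -/
def chkInst (I : Inst) : Bool :=
  decide (I.2.length = I.1.length) && ((I.1.all fun l => isPerm I.1.length l) &&
    ((I.2.all fun l => isPerm I.1.length l) &&
      I.2.all fun l => decide (l = std I.1.length (l.getD 0 0) (l.getD 1 0))))

theorem chkInst_iff (I : Inst) : chkInst I = true ↔ IsInstance I ∧ AlmostCommon I := by
  unfold chkInst IsInstance AlmostCommon
  simp only [Bool.and_eq_true, decide_eq_true_eq, List.all_eq_true, isPerm_iff]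
  have hstd : ∀ n a b : ℕ, std n a b =
      a :: b :: (List.range n).filter fun m => decide (m ≠ a ∧ m ≠ b) := by
    intro n a b
    unfold std
    congr 2
    apply List.filter_congr
    intro m _
    simp
  constructor
  · rintro ⟨h1, h2, h3, h4⟩
    exact ⟨⟨h1, h2, h3⟩, fun l hl => ⟨_, _, (h4 l hl).trans (hstd _ _ _)⟩⟩
  · rintro ⟨⟨h1, h2, h3⟩, h4⟩
    refine ⟨h1, h2, h3, fun l hl => ?_⟩
    obtain ⟨a, b, hab⟩ := h4 l hl
    rw [hstd]
    conv_lhs => rw [hab]
    rw [hab]
    simp

/-- Check the potential: `f x y z` says that the agent with list number `x` compares `y` and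
`z`. -/
def chkMen (I : Inst) (w : List ℕ × List ℕ × List ℕ) : Bool :=
  (List.range I.1.length).all fun i => (List.range I.1.length).all fun i' =>
    !decide (pos (I.1.getD i []) (w.1.getD i' 0) < pos (I.1.getD i []) (w.1.getD i 0)) ||
      decide (w.2.1.getD i' 0 < w.2.1.getD i 0)

/-- Check the potential of the women. -/
def chkWomen (I : Inst) (w : List ℕ × List ℕ × List ℕ) : Bool :=
  (List.range I.1.length).all fun i => (List.range I.1.length).all fun i' =>
    !decide (pos (I.2.getD (w.1.getD i 0) []) i' < pos (I.2.getD (w.1.getD i 0) []) i) ||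
      decide (w.2.2.getD i' 0 < w.2.2.getD i 0)

/-- Check a certificate. -/
def chk (x : Inst × (List ℕ × List ℕ × List ℕ)) : Bool :=
  chkInst x.1 && (isPerm x.1.1.length x.2.1 && (chkMen x.1 x.2 && chkWomen x.1 x.2))

namespace P

variable {α : Type} [TEnc α]

theorem pos {l : α → List ℕ} {b : α → ℕ} (hl : Poly l) (hb : Poly b) :
    Poly (fun a => pos (l a) (b a)) := by
  refine foldr' (F := fun a x acc => bif decide (x = b a) then 0 else acc + 1) hl (Poly.const 0)
    ?_ (fun a => 4 * (l a).length + 1) ?_ ?_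
  · exact Poly.cond (Poly.decide_eq (Poly.fst (Poly.snd Poly.id)) (hb.comp (Poly.fst Poly.id)))
      (Poly.const 0) (Poly.succ (Poly.snd (Poly.snd Poly.id)))
  · exact PB.add (PB.mul (PB.const 4) (PB.of_upoly (UPoly.length hl))) (PB.const 1)
  · intro a k hk
    have h1 := pos_le ((l a).drop k) (b a)
    rw [List.length_drop] at h1
    refine (H56N.P.sz_nat_le' _).trans ?_
    change 4 * H56CES.pos ((l a).drop k) (b a) + 1 ≤ _
    omega

theorem isPerm {n : α → ℕ} {l : α → List ℕ} (hn : UPoly n) (hl : Poly l) :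
    Poly (fun a => isPerm (n a) (l a)) := by
  refine Poly.and (Poly.decide_eq (Poly.length hl) hn.toPoly)
    (Poly.all (p := fun a j => decide (j ∈ l a)) hn.range ?_)
  exact mem' (Poly.snd Poly.id) (hl.comp (Poly.fst Poly.id))

theorem std {n a b : α → ℕ} (hn : UPoly n) (ha : Poly a) (hb : Poly b) :
    Poly (fun x => std (n x) (a x) (b x)) := by
  refine Poly.cons ha (Poly.cons hb (filterM
    (p := fun x m => decide (¬ m = a x) && decide (¬ m = b x)) hn.range ?_))
  exact Poly.and
    (Poly.decide_not (Poly.decide_eq (Poly.snd Poly.id) (ha.comp (Poly.fst Poly.id))))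
    (Poly.decide_not (Poly.decide_eq (Poly.snd Poly.id) (hb.comp (Poly.fst Poly.id))))

end P

theorem poly_chkInst : Poly chkInst := by
  have hn : UPoly (fun I : Inst => I.1.length) := UPoly.length (Poly.fst Poly.id)
  refine Poly.and (Poly.decide_eq (Poly.length (Poly.snd Poly.id)) hn.toPoly)
    (Poly.and (Poly.all (p := fun (I : Inst) l => isPerm I.1.length l) (Poly.fst Poly.id) ?_)
      (Poly.and (Poly.all (p := fun (I : Inst) l => isPerm I.1.length l) (Poly.snd Poly.id) ?_)
        (Poly.all (p := fun (I : Inst) l => decide (l = std I.1.length (l.getD 0 0) (l.getD 1 0)))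
          (Poly.snd Poly.id) ?_)))
  · exact P.isPerm (hn.comp (Poly.fst Poly.id)) (Poly.snd Poly.id)
  · exact P.isPerm (hn.comp (Poly.fst Poly.id)) (Poly.snd Poly.id)
  · refine Poly.decide_eq (Poly.snd Poly.id) (P.std (hn.comp (Poly.fst Poly.id))
      (Poly.getD (Poly.snd Poly.id) (Poly.const 0) (Poly.const 0))
      (Poly.getD (Poly.snd Poly.id) (Poly.const 1) (Poly.const 0)))

/-- Certificates. -/
abbrev Cert : Type := List ℕ × List ℕ × List ℕ

theorem poly_chkMen : Poly (fun x : Inst × Cert => chkMen x.1 x.2) := by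
  have hn : UPoly (fun x : Inst × Cert => x.1.1.length) := UPoly.length (Poly.fst (Poly.fst Poly.id))
  refine Poly.all (p := fun (x : Inst × Cert) i => (List.range x.1.1.length).all fun i' =>
    !decide (pos (x.1.1.getD i []) (x.2.1.getD i' 0) < pos (x.1.1.getD i []) (x.2.1.getD i 0)) ||
      decide (x.2.2.1.getD i' 0 < x.2.2.1.getD i 0)) hn.range ?_
  refine Poly.all (p := fun (y : (Inst × Cert) × ℕ) i' =>
    !decide (pos (y.1.1.1.getD y.2 []) (y.1.2.1.getD i' 0) <
      pos (y.1.1.1.getD y.2 []) (y.1.2.1.getD y.2 0)) ||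
      decide (y.1.2.2.1.getD i' 0 < y.1.2.2.1.getD y.2 0)) (hn.comp (Poly.fst Poly.id)).range ?_
  have hx : Poly (fun z : ((Inst × Cert) × ℕ) × ℕ => z.1.1) := Poly.fst (Poly.fst Poly.id)
  have hi : Poly (fun z : ((Inst × Cert) × ℕ) × ℕ => z.1.2) := Poly.snd (Poly.fst Poly.id)
  have hi' : Poly (fun z : ((Inst × Cert) × ℕ) × ℕ => z.2) := Poly.snd Poly.id
  have hl : Poly (fun z : ((Inst × Cert) × ℕ) × ℕ => z.1.1.1.1.getD z.1.2 []) :=
    Poly.getD (Poly.fst (Poly.fst hx)) hi (Poly.const [])
  have hμ : Poly (fun z : ((Inst × Cert) × ℕ) × ℕ => z.1.1.2.1) := Poly.fst (Poly.snd hx)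
  have hr : Poly (fun z : ((Inst × Cert) × ℕ) × ℕ => z.1.1.2.2.1) :=
    Poly.fst (Poly.snd (Poly.snd hx))
  exact Poly.or (Poly.not (Poly.decide_lt (P.pos hl (Poly.getD hμ hi' (Poly.const 0)))
    (P.pos hl (Poly.getD hμ hi (Poly.const 0)))))
    (Poly.decide_lt (Poly.getD hr hi' (Poly.const 0)) (Poly.getD hr hi (Poly.const 0)))

theorem poly_chkWomen : Poly (fun x : Inst × Cert => chkWomen x.1 x.2) := by
  have hn : UPoly (fun x : Inst × Cert => x.1.1.length) := UPoly.length (Poly.fst (Poly.fst Poly.id))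
  refine Poly.all (p := fun (x : Inst × Cert) i => (List.range x.1.1.length).all fun i' =>
    !decide (pos (x.1.2.getD (x.2.1.getD i 0) []) i' < pos (x.1.2.getD (x.2.1.getD i 0) []) i) ||
      decide (x.2.2.2.getD i' 0 < x.2.2.2.getD i 0)) hn.range ?_
  refine Poly.all (p := fun (y : (Inst × Cert) × ℕ) i' =>
    !decide (pos (y.1.1.2.getD (y.1.2.1.getD y.2 0) []) i' <
      pos (y.1.1.2.getD (y.1.2.1.getD y.2 0) []) y.2) ||
      decide (y.1.2.2.2.getD i' 0 < y.1.2.2.2.getD y.2 0)) (hn.comp (Poly.fst Poly.id)).range ?_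
  have hx : Poly (fun z : ((Inst × Cert) × ℕ) × ℕ => z.1.1) := Poly.fst (Poly.fst Poly.id)
  have hi : Poly (fun z : ((Inst × Cert) × ℕ) × ℕ => z.1.2) := Poly.snd (Poly.fst Poly.id)
  have hi' : Poly (fun z : ((Inst × Cert) × ℕ) × ℕ => z.2) := Poly.snd Poly.id
  have hμ : Poly (fun z : ((Inst × Cert) × ℕ) × ℕ => z.1.1.2.1) := Poly.fst (Poly.snd hx)
  have hl : Poly (fun z : ((Inst × Cert) × ℕ) × ℕ =>
      z.1.1.1.2.getD (z.1.1.2.1.getD z.1.2 0) []) :=
    Poly.getD (Poly.snd (Poly.fst hx)) (Poly.getD hμ hi (Poly.const 0)) (Poly.const [])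
  have hr : Poly (fun z : ((Inst × Cert) × ℕ) × ℕ => z.1.1.2.2.2) :=
    Poly.snd (Poly.snd (Poly.snd hx))
  exact Poly.or (Poly.not (Poly.decide_lt (P.pos hl hi') (P.pos hl hi)))
    (Poly.decide_lt (Poly.getD hr hi' (Poly.const 0)) (Poly.getD hr hi (Poly.const 0)))

theorem poly_chk : Poly chk := by
  refine Poly.and (poly_chkInst.comp (Poly.fst Poly.id)) (Poly.and ?_
    (Poly.and poly_chkMen poly_chkWomen))
  exact P.isPerm (UPoly.length (Poly.fst (Poly.fst Poly.id))) (Poly.fst (Poly.snd Poly.id))

/-! ### Correctness of the verification -/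

/-- A list of length `n` read as a function. -/
theorem getD_ofFn {n : ℕ} (f : Fin n → ℕ) (i : Fin n) : (List.ofFn f).getD i.val 0 = f i := by
  rw [List.getD_eq_getElem _ _ (by simp)]
  simp

theorem exists_perm {n : ℕ} {l : List ℕ} (h : l.Perm (List.range n)) :
    ∃ M : Equiv.Perm (Fin n), ∀ i : Fin n, (M i).val = l.getD i.val 0 := by
  have hlen : l.length = n := by rw [h.length_eq, List.length_range]
  have hlt : ∀ i : Fin n, l.getD i.val 0 < n := by
    intro i
    rw [List.getD_eq_getElem _ _ (by omega), ← List.mem_range, ← h.mem_iff]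
    exact List.getElem_mem _
  have hnd : l.Nodup := h.nodup_iff.2 List.nodup_range
  have hinj : Function.Injective fun i : Fin n => (⟨l.getD i.val 0, hlt i⟩ : Fin n) := by
    intro i j hij
    simp only [Fin.mk.injEq] at hij
    rw [List.getD_eq_getElem _ _ (by omega), List.getD_eq_getElem _ _ (by omega)] at hij
    exact Fin.ext ((hnd.getElem_inj_iff).1 hij)
  exact ⟨Equiv.ofBijective _ (Finite.injective_iff_bijective.1 hinj), fun i => rfl⟩

theorem ofFn_perm {n : ℕ} (M : Equiv.Perm (Fin n)) :
    (List.ofFn fun i => (M i).val).Perm (List.range n) := by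
  rw [← isPerm_iff]
  unfold isPerm
  simp only [List.length_ofFn, decide_true, Bool.true_and, List.all_eq_true, List.mem_range,
    decide_eq_true_eq, List.mem_ofFn]
  intro j hj
  exact ⟨M.symm ⟨j, hj⟩, by simp⟩

theorem sz_ofFn {n B : ℕ} (f : Fin n → ℕ) (h : ∀ i, f i ≤ B) :
    sz (List.ofFn f) ≤ n * (4 * B + 2) + 1 := by
  have := sz_le_length_mul (List.ofFn f) (4 * B + 1) (by
    intro a ha
    rw [List.mem_ofFn] at ha
    obtain ⟨i, rfl⟩ := ha
    refine (H56N.P.sz_nat_le' _).trans ?_
    have := h i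
    omega)
  rw [List.length_ofFn] at this
  exact this

theorem stable_of_chk {I : Inst} {w : Cert} (h : chk (I, w) = true) : HasStable I := by
  unfold chk at h
  simp only [Bool.and_eq_true] at h
  obtain ⟨h1, h2, h3, h4⟩ := h
  rw [chkInst_iff] at h1
  rw [isPerm_iff] at h2
  obtain ⟨M, hM⟩ := exists_perm h2
  refine ⟨h1, M, ?_, ?_⟩
  · refine not_blocking (fun i => w.2.1.getD i.val 0) ?_
    intro a b hab
    unfold chkMen at h3
    rw [List.all_eq_true] at h3
    have h5 := h3 a.val (List.mem_range.2 a.isLt)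
    rw [List.all_eq_true] at h5
    have h6 := h5 b.val (List.mem_range.2 b.isLt)
    unfold Envies Prefers at hab
    rw [hM, hM] at hab
    simp only [pos_eq, Bool.or_eq_true, Bool.not_eq_true', decide_eq_false_iff_not,
      decide_eq_true_eq] at h6
    exact h6.resolve_left (not_not_intro hab)
  · refine not_blocking (fun j => w.2.2.getD (M.symm j).val 0) ?_
    intro a b hab
    unfold chkWomen at h4
    rw [List.all_eq_true] at h4
    have h5 := h4 (M.symm a).val (List.mem_range.2 (M.symm a).isLt)
    rw [List.all_eq_true] at h5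
    have h6 := h5 (M.symm b).val (List.mem_range.2 (M.symm b).isLt)
    unfold Envies Prefers at hab
    rw [← hM, Equiv.apply_symm_apply] at h6
    simp only [pos_eq, Bool.or_eq_true, Bool.not_eq_true', decide_eq_false_iff_not,
      decide_eq_true_eq] at h6
    exact h6.resolve_left (not_not_intro hab)

theorem chk_of_stable {I : Inst} (h : HasStable I) :
    ∃ w : Cert, sz w ≤ 3 * (I.1.length * (4 * I.1.length + 2) + 1) + 2 ∧ chk (I, w) = true := by
  obtain ⟨h1, M, h2, h3⟩ := h
  obtain ⟨r, hr, hr'⟩ := exists_potential h2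
  obtain ⟨s, hs, hs'⟩ := exists_potential h3
  refine ⟨(List.ofFn fun i => (M i).val, List.ofFn r, List.ofFn fun i => s (M i)), ?_, ?_⟩
  · have e1 := sz_ofFn (B := I.1.length) (fun i => (M i).val) (fun i => (M i).isLt.le)
    have e2 := sz_ofFn r hr
    have e3 := sz_ofFn (fun i => s (M i)) (fun i => hs _)
    rw [sz_pair, sz_pair]
    omega
  · unfold chk
    simp only [Bool.and_eq_true]
    refine ⟨(chkInst_iff I).2 h1, (isPerm_iff _ _).2 (ofFn_perm M), ?_, ?_⟩
    · unfold chkMen
      rw [List.all_eq_true]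
      intro i hi
      rw [List.all_eq_true]
      intro i' hi'
      rw [List.mem_range] at hi hi'
      have := hr' ⟨i, hi⟩ ⟨i', hi'⟩
      unfold Envies Prefers at this
      simp only [pos_eq, Bool.or_eq_true, Bool.not_eq_true', decide_eq_false_iff_not,
        decide_eq_true_eq]
      rw [getD_ofFn (fun i => (M i).val) ⟨i, hi⟩, getD_ofFn (fun i => (M i).val) ⟨i', hi'⟩,
        getD_ofFn r ⟨i, hi⟩, getD_ofFn r ⟨i', hi'⟩]
      by_cases hc : List.idxOf (M ⟨i', hi'⟩).val (I.1.getD i []) <
          List.idxOf (M ⟨i, hi⟩).val (I.1.getD i [])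
      · exact Or.inr (this hc)
      · exact Or.inl hc
    · unfold chkWomen
      rw [List.all_eq_true]
      intro i hi
      rw [List.all_eq_true]
      intro i' hi'
      rw [List.mem_range] at hi hi'
      have := hs' (M ⟨i, hi⟩) (M ⟨i', hi'⟩)
      unfold Envies Prefers at this
      simp only [pos_eq, Bool.or_eq_true, Bool.not_eq_true', decide_eq_false_iff_not,
        decide_eq_true_eq]
      rw [getD_ofFn (fun i => (M i).val) ⟨i, hi⟩,
        getD_ofFn (fun i => s (M i)) ⟨i, hi⟩, getD_ofFn (fun i => s (M i)) ⟨i', hi'⟩]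
      rw [Equiv.symm_apply_apply, Equiv.symm_apply_apply] at this
      by_cases hc : List.idxOf i' (I.2.getD (M ⟨i, hi⟩).val []) <
          List.idxOf i (I.2.getD (M ⟨i, hi⟩).val [])
      · exact Or.inr (this hc)
      · exact Or.inl hc

/-- The existence of coalition-exchange-stable matchings is in `NP`. -/
theorem inNPP_stable : InNPP HasStable := by
  have hB : PB (fun I : Inst => 3 * (I.1.length * (4 * I.1.length + 2) + 1) + 2) := by
    have hn : PB (fun I : Inst => I.1.length) := PB.of_upoly (UPoly.length (Poly.fst Poly.id))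
    exact PB.add (PB.mul (PB.const 3) (PB.add (PB.mul hn (PB.add (PB.mul (PB.const 4) hn)
      (PB.const 2))) (PB.const 1))) (PB.const 2)
  obtain ⟨q, hq⟩ := hB
  refine inNPP_of poly_chk q fun I => ?_
  constructor
  · intro h
    obtain ⟨w, hw, hw'⟩ := chk_of_stable h
    exact ⟨w, hw.trans (hq I), hw'⟩
  · rintro ⟨w, _, hw⟩
    exact stable_of_chk hw

/-! ### The search problem -/

/-- Does the output report a matching? -/
def found (y : List Bool) : Bool :=
  match unbits (Option (List ℕ)) y with
  | some (some _) => true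
  | _ => false

theorem poly_found : Poly found := by
  refine (Poly.optCases (g := fun _ => false) (h := fun _ (o : Option (List ℕ)) => o.isSome)
    poly_unbits (Poly.const _) (Poly.isSome (Poly.snd Poly.id))).congr fun y => ?_
  unfold found
  cases unbits (Option (List ℕ)) y with
  | none => rfl
  | some o => cases o <;> rfl

theorem found_bits (o : Option (List ℕ)) : found (bits o) = o.isSome := by
  unfold found
  rw [unbits_bits]
  cases o <;> rfl

/-- A polynomial-time algorithm for the search problem would show that `P = NP`. -/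
theorem search_hard (h : ∃ F : List Bool → List Bool, PolyTime F ∧ SolvesSearch F) :
    ∀ L : Set (List Bool), InNP L → InP L := by
  obtain ⟨F, hF, hFS⟩ := h
  intro L hL
  obtain ⟨f, hf, hpr, hfL⟩ := hardPr_stable L hL
  refine ⟨fun x => [found (F (bits (f x)))], polyTime_test
    (F := fun x => F (bits (f x))) (H642R2.TMSim.polyTime_comp hF hf.toPolyTime) poly_found,
    fun x => ?_⟩
  rw [hfL x]
  beta_reduce
  rcases hFS (f x) (hpr x).1 (hpr x).2 with ⟨M, hM, hout⟩ | ⟨hno, hout⟩
  · rw [hout, found_bits]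
    simp only [Option.isSome_some, iff_true]
    exact ⟨hpr x, M, hM⟩
  · rw [hout, found_bits]
    simp only [Option.isSome_none, List.cons.injEq, Bool.false_eq_true, and_true, iff_false]
    rintro ⟨_, M, hM⟩
    exact hno M hM

/-- Every language in `NP` has a polynomial-time reduction to the question whether an instance has
a coalition-exchange-stable matching. -/
theorem many_one : ∀ L : Set (List Bool), InNP L → ∃ f : List Bool → Inst,
    PolyTime (fun x => bits (f x)) ∧ (∀ x, IsInstance (f x) ∧ AlmostCommon (f x)) ∧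
      ∀ x, x ∈ L ↔ ∃ M : Equiv.Perm (Fin (f x).1.length), CoalitionExchangeStable (f x) M := by
  intro L hL
  obtain ⟨f, hf, hpr, hfL⟩ := hardPr_stable L hL
  refine ⟨f, hf.toPolyTime, hpr, fun x => ?_⟩
  rw [hfL x]
  exact ⟨fun h => h.2, fun h => ⟨hpr x, h⟩⟩

end Pool.Agent.NPC.H56CES
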