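import Pool.Agent.H56CES.Cyc
import Pool.Agent.NPC.Sat2

/-!
# The reduction

Every clause position `p` and every variable `x` has a gadget with two men and two women. The women
of a gadget rank the two men of their gadget first, so that in a coalition-exchange-stable
matching every gadget is matched inside itself, in one of two ways.
-/

set_option autoImplicit false

namespace Pool.Agent.NPC.H56CES

/-- Formulas with three literals in every clause. -/
abbrev Form : Type := List (Lit ℕ × Lit ℕ × Lit ℕ)

/-- The list of all literals. -/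
def lits (φ : Form) : List (Bool × ℕ) := φ.flatMap fun c => [c.1, c.2.1, c.2.2]

/-- The literal at the position `p`. -/
def lit (φ : Form) (p : ℕ) : Bool × ℕ := (lits φ).getD p (false, 0)

/-- The next position in the clause. -/
def nxt (p : ℕ) : ℕ := bif decide (p % 3 = 2) then p - 2 else p + 1

/-- The second women of the gadgets of the positions with the literal `(b, x)`. -/
def occ (φ : Form) (b : Bool) (x : ℕ) : List ℕ :=
  ((List.range (lits φ).length).filter fun p => decide (lit φ p = (b, x))).map fun p => 2 * p + 1

/-- The beginning of the list of the man `i`. -/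
def pre (φ : Form) (i : ℕ) : List ℕ :=
  bif decide (i / 2 < (lits φ).length) then
    (bif decide (i % 2 = 0) then [2 * (i / 2), 2 * (i / 2) + 1] else
      [2 * nxt (i / 2), 2 * (i / 2), 2 * ((lits φ).length + (lit φ (i / 2)).2), 2 * (i / 2) + 1])
  else occ φ (decide (i % 2 = 1)) (i / 2 - (lits φ).length) ++ [2 * (i / 2), 2 * (i / 2) + 1]

/-- Complete a list by all other numbers below `n`. -/
def complete (n : ℕ) (l : List ℕ) : List ℕ := l ++ (List.range n).filter fun j => !decide (j ∈ l)

/-- The lists of the men. -/
def men (φ : Form) : List (List ℕ) :=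
  (List.range (4 * (lits φ).length)).map fun i => complete (4 * (lits φ).length) (pre φ i)

/-- The lists of the women. -/
def women (φ : Form) : List (List ℕ) :=
  (List.range (4 * (lits φ).length)).map fun j =>
    complete (4 * (lits φ).length) [2 * (j / 2), 2 * (j / 2) + 1]

/-- The reduction. -/
def red (φ : Form) : Inst := (men φ, women φ)

/-! ### Lists -/

theorem complete_perm {n : ℕ} {l : List ℕ} (h1 : l.Nodup) (h2 : ∀ x ∈ l, x < n) :
    (complete n l).Perm (List.range n) := by
  rw [List.perm_ext_iff_of_nodup]
  · intro a
    unfold complete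
    simp only [List.mem_append, List.mem_filter, List.mem_range, Bool.not_eq_true',
      decide_eq_false_iff_not]
    constructor
    · rintro (h | h)
      · exact h2 a h
      · exact h.1
    · intro h
      by_cases ha : a ∈ l
      · exact Or.inl ha
      · exact Or.inr ⟨h, ha⟩
  · unfold complete
    rw [List.nodup_append]
    refine ⟨h1, List.nodup_range.filter _, ?_⟩
    intro a ha b hb
    rw [List.mem_filter] at hb
    rintro rfl
    simp [ha] at hb
  · exact List.nodup_range

theorem prefers_complete {n : ℕ} {l : List ℕ} {b c : ℕ} (hc : c ∈ l) :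
    Prefers (complete n l) b c ↔ l.idxOf b < l.idxOf c := by
  unfold Prefers complete
  rw [List.idxOf_append_of_mem hc]
  by_cases hb : b ∈ l
  · rw [List.idxOf_append_of_mem hb]
  · rw [List.idxOf_append_of_notMem hb, List.idxOf_eq_length_iff.2 hb]
    have := List.idxOf_lt_length_iff.2 hc
    omega

theorem prefers_of_notMem {n : ℕ} {l : List ℕ} {b c : ℕ} (hb : b ∈ l) (hc : c ∉ l) :
    Prefers (complete n l) b c := by
  unfold Prefers complete
  rw [List.idxOf_append_of_mem hb, List.idxOf_append_of_notMem hc]
  have := List.idxOf_lt_length_iff.2 hb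
  omega

theorem getD_map_range {n i : ℕ} (f : ℕ → List ℕ) (hi : i < n) :
    ((List.range n).map f).getD i [] = f i := by
  rw [List.getD_eq_getElem _ _ (by simpa using hi)]
  simp

theorem men_getD (φ : Form) {i : ℕ} (hi : i < 4 * (lits φ).length) :
    (men φ).getD i [] = complete (4 * (lits φ).length) (pre φ i) := getD_map_range _ hi

theorem women_getD (φ : Form) {i : ℕ} (hi : i < 4 * (lits φ).length) :
    (women φ).getD i [] = complete (4 * (lits φ).length) [2 * (i / 2), 2 * (i / 2) + 1] :=
  getD_map_range _ hi

theorem length_lits (φ : Form) : (lits φ).length = 3 * φ.length := by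
  induction φ with
  | nil => rfl
  | cons c φ ih =>
    unfold lits at ih ⊢
    rw [List.flatMap_cons, List.length_append, ih, List.length_cons]
    simp
    ring

theorem nxt_lt {φ : Form} {p : ℕ} (hp : p < (lits φ).length) : nxt p < (lits φ).length := by
  rw [length_lits] at hp ⊢
  unfold nxt
  by_cases h : p % 3 = 2
  · simp only [h, decide_true, cond_true]
    omega
  · simp only [h, decide_false, cond_false]
    omega

theorem nxt_ne (p : ℕ) : nxt p ≠ p := by
  unfold nxt
  by_cases h : p % 3 = 2
  · simp only [h, decide_true, cond_true]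
    omega
  · simp only [h, decide_false, cond_false]
    omega

theorem nxt_div (p : ℕ) : nxt p / 3 = p / 3 := by
  unfold nxt
  by_cases h : p % 3 = 2
  · simp only [h, decide_true, cond_true]
    omega
  · simp only [h, decide_false, cond_false]
    omega

theorem nxt_mod (p : ℕ) : nxt p % 3 = (p + 1) % 3 := by
  unfold nxt
  by_cases h : p % 3 = 2
  · simp only [h, decide_true, cond_true]
    omega
  · simp only [h, decide_false, cond_false]

/-! ### The beginnings of the lists of the men -/

variable {φ : Form}

theorem pre_even {p : ℕ} (hp : p < (lits φ).length) : pre φ (2 * p) = [2 * p, 2 * p + 1] := by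
  unfold pre
  have h1 : 2 * p / 2 = p := by omega
  have h2 : 2 * p % 2 = 0 := by omega
  rw [h1, h2]
  simp [hp]

theorem pre_odd {p : ℕ} (hp : p < (lits φ).length) : pre φ (2 * p + 1) =
    [2 * nxt p, 2 * p, 2 * ((lits φ).length + (lit φ p).2), 2 * p + 1] := by
  unfold pre
  have h1 : (2 * p + 1) / 2 = p := by omega
  have h2 : (2 * p + 1) % 2 = 1 := by omega
  rw [h1, h2]
  simp [hp]

theorem pre_var_even (x : ℕ) : pre φ (2 * ((lits φ).length + x)) =
    occ φ false x ++ [2 * ((lits φ).length + x), 2 * ((lits φ).length + x) + 1] := by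
  unfold pre
  have h1 : 2 * ((lits φ).length + x) / 2 = (lits φ).length + x := by omega
  have h2 : 2 * ((lits φ).length + x) % 2 = 0 := by omega
  rw [h1, h2]
  simp

theorem pre_var_odd (x : ℕ) : pre φ (2 * ((lits φ).length + x) + 1) =
    occ φ true x ++ [2 * ((lits φ).length + x), 2 * ((lits φ).length + x) + 1] := by
  unfold pre
  have h1 : (2 * ((lits φ).length + x) + 1) / 2 = (lits φ).length + x := by omega
  have h2 : (2 * ((lits φ).length + x) + 1) % 2 = 1 := by omega
  rw [h1, h2]
  simp

theorem mem_occ {b : Bool} {x j : ℕ} : j ∈ occ φ b x ↔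
    ∃ p < (lits φ).length, lit φ p = (b, x) ∧ j = 2 * p + 1 := by
  unfold occ
  simp only [List.mem_map, List.mem_filter, List.mem_range, decide_eq_true_eq]
  constructor
  · rintro ⟨p, ⟨h1, h2⟩, h3⟩
    exact ⟨p, h1, h2, h3.symm⟩
  · rintro ⟨p, h1, h2, h3⟩
    exact ⟨p, ⟨h1, h2⟩, h3.symm⟩

theorem nodup_occ (b : Bool) (x : ℕ) : (occ φ b x).Nodup := by
  unfold occ
  refine List.Nodup.map ?_ (List.nodup_range.filter _)
  intro a b h
  simp only at h
  omega

/-- All variables are smaller than the number of the literals. -/
def Bd (φ : Form) : Prop := ∀ p < (lits φ).length, (lit φ p).2 < (lits φ).length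

theorem bd_of_bounded3 (h : Bounded3 φ) : Bd φ := by
  intro p hp
  have h1 : lit φ p ∈ lits φ := by
    unfold lit
    rw [List.getD_eq_getElem _ _ hp]
    exact List.getElem_mem hp
  unfold lits at h1
  rw [List.mem_flatMap] at h1
  obtain ⟨c, hc, h2⟩ := h1
  rw [length_lits]
  obtain ⟨h3, h4, h5⟩ := h c hc
  simp only [List.mem_cons, List.not_mem_nil, or_false] at h2
  rcases h2 with h2 | h2 | h2 <;> rw [h2] <;> assumption

theorem even_or_odd' (i : ℕ) : ∃ g, i = 2 * g ∨ i = 2 * g + 1 := ⟨i / 2, by omega⟩

theorem nodup_pre (i : ℕ) : (pre φ i).Nodup := by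
  obtain ⟨g, hg⟩ := even_or_odd' i
  rcases lt_or_ge g (lits φ).length with h | h
  · rcases hg with rfl | rfl
    · rw [pre_even h]
      simp
    · rw [pre_odd h]
      have h1 := nxt_ne g
      have h2 := nxt_lt h
      simp only [List.nodup_cons, List.mem_cons, List.not_mem_nil, or_false, not_false_eq_true,
        List.nodup_nil, and_true, not_or]
      omega
  · obtain ⟨x, rfl⟩ := Nat.exists_eq_add_of_le h
    rcases hg with rfl | rfl
    · rw [pre_var_even, List.nodup_append]
      refine ⟨nodup_occ _ _, by simp, ?_⟩
      intro a ha b hb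
      rw [mem_occ] at ha
      obtain ⟨p, hp, _, rfl⟩ := ha
      simp only [List.mem_cons, List.not_mem_nil, or_false] at hb
      omega
    · rw [pre_var_odd, List.nodup_append]
      refine ⟨nodup_occ _ _, by simp, ?_⟩
      intro a ha b hb
      rw [mem_occ] at ha
      obtain ⟨p, hp, _, rfl⟩ := ha
      simp only [List.mem_cons, List.not_mem_nil, or_false] at hb
      omega

theorem pre_lt (hB : Bd φ) {i : ℕ} (hi : i < 4 * (lits φ).length) :
    ∀ x ∈ pre φ i, x < 4 * (lits φ).length := by
  obtain ⟨g, hg⟩ := even_or_odd' i
  intro y hy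
  rcases lt_or_ge g (lits φ).length with h | h
  · rcases hg with rfl | rfl
    · rw [pre_even h] at hy
      simp only [List.mem_cons, List.not_mem_nil, or_false] at hy
      omega
    · rw [pre_odd h] at hy
      have h2 := nxt_lt h
      have h3 := hB g h
      simp only [List.mem_cons, List.not_mem_nil, or_false] at hy
      omega
  · obtain ⟨x, rfl⟩ := Nat.exists_eq_add_of_le h
    rcases hg with rfl | rfl
    · rw [pre_var_even, List.mem_append, mem_occ] at hy
      simp only [List.mem_cons, List.not_mem_nil, or_false] at hy
      rcases hy with ⟨p, hp, _, rfl⟩ | hy <;> omega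
    · rw [pre_var_odd, List.mem_append, mem_occ] at hy
      simp only [List.mem_cons, List.not_mem_nil, or_false] at hy
      rcases hy with ⟨p, hp, _, rfl⟩ | hy <;> omega

theorem isInstance_red (hB : Bd φ) : IsInstance (red φ) := by
  refine ⟨by simp [red, men, women], ?_, ?_⟩
  · intro l hl
    have h1 : (red φ).1.length = 4 * (lits φ).length := by simp [red, men]
    rw [h1]
    simp only [red, men, List.mem_map, List.mem_range] at hl
    obtain ⟨i, hi, rfl⟩ := hl
    exact complete_perm (nodup_pre i) (pre_lt hB hi)
  · intro l hl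
    have h1 : (red φ).1.length = 4 * (lits φ).length := by simp [red, men]
    rw [h1]
    simp only [red, women, List.mem_map, List.mem_range] at hl
    obtain ⟨i, hi, rfl⟩ := hl
    refine complete_perm (by simp) ?_
    intro x hx
    simp only [List.mem_cons, List.not_mem_nil, or_false] at hx
    omega

theorem almostCommon_red (φ : Form) : AlmostCommon (red φ) := by
  intro l hl
  have h1 : (red φ).1.length = 4 * (lits φ).length := by simp [red, men]
  rw [h1]
  simp only [red, women, List.mem_map, List.mem_range] at hl
  obtain ⟨i, hi, rfl⟩ := hl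
  refine ⟨2 * (i / 2), 2 * (i / 2) + 1, ?_⟩
  unfold complete
  rw [List.cons_append, List.cons_append, List.nil_append]
  congr 2
  apply List.filter_congr
  intro m _
  simp

end Pool.Agent.NPC.H56CES
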